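import Pool.Agent.Y34.EL.Link
import Pool.Agent.Y93.EL.Stew
import Pool.Agent.Y474.EL.Tri
import Pool.Agent.Y15.EL.Proj
import Pool.Agent.Y350.EL.JoinHalf
import Pool.Agent.Y794.EL.Line
import Pool.Agent.Y901.EL.Far
import Pool.Agent.Y954.EL.HLim
import Pool.Agent.Y219.EL.Axis
import Pool.Agent.Y975.EL.Close
import Pool.Agent.Y988.EL.Dual
import Pool.Agent.Y350.EL.LRay
import Pool.Agent.Y73.EL.DP
import Pool.Agent.Y914.EL.Wlk
import Pool.Agent.Y899.EL.Cap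
import Pool.Agent.Y528.EL.Harm

set_option autoImplicit false

universe u v

open Pool.Agent.TH60.FP Pool.Agent.Y34.HB

namespace Pool.Agent.Y34.EL

theorem t_stew : S_STEW.{u} := Pool.Agent.Y93.EL.t1
theorem t_cmp : S_CMP.{u} := Pool.Agent.Y93.EL.t2 t_stew
theorem t_tri : S_TRI.{u} := Pool.Agent.Y474.EL.t t_cmp
theorem t_proj : S_PROJ.{u} := Pool.Agent.Y15.EL.t_PROJ t_stew t_cmp
theorem t_join : S_JOIN.{u} := Pool.Agent.Y350.EL.t_JOIN t_stew t_proj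
theorem t_half : S_HALF.{u} := Pool.Agent.Y350.EL.t_HALF t_stew t_proj
theorem t_line : S_LINE.{u} := Pool.Agent.Y794.EL.Line.t_LINE t_stew t_cmp
theorem t_far : S_FAR.{u} := Pool.Agent.Y901.EL.far t_stew t_cmp
theorem t_ro : S_RO.{u} := Pool.Agent.Y975.EL.Close.t1 t_far Pool.Agent.Y954.EL.hlim
theorem t_closing : S_CLOSE.{u, v} :=
  Pool.Agent.Y975.EL.Close.t2 t_stew t_cmp t_ro Pool.Agent.Y219.EL.t_axis
theorem t_dual : S_DUAL.{u, v} := Pool.Agent.Y988.EL.t_DUAL t_stew t_cmp t_closing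
theorem t_lray : S_LRAY.{u} := Pool.Agent.Y350.EL.t_LRAY t_stew t_cmp
theorem t_dp : S_DP.{u, v} := Pool.Agent.Y73.EL.t_DP t_stew t_cmp t_tri t_lray

/-- all rays are linked if there are no rank one isometries -/
theorem linked {X : Type u} [MetricSpace X] {G : Type v} [Group G] [MulAction G X]
    (hG : Geo X G) (hno : ∀ g : G, ¬ RankOne X g) (o : X)
    (c₁ c₂ : ℝ → X) (hc₁ : Ray o c₁) (hc₂ : Ray o c₂) : Lnk o 42 c₁ c₂ :=
  link t_join t_line t_half t_dual t_dp hG hno o c₁ c₂ hc₁ hc₂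

/-- the energy of harmonic functions -/
theorem energy_log {X : Type u} [MetricSpace X] {G : Type v}
    [Group G] [MulAction G X] (hG : Geo X G) (hGC : GC X) (hno : ∀ g : G, ¬ RankOne X g) (o : X)
    (S : Finset G) (hS : ∀ s ∈ S, s⁻¹ ∈ S) (hgen : Subgroup.closure (S : Set G) = ⊤)
    (f : G → ℝ) (hf : ∀ g, ∑ s ∈ S, (f (g * s) - f g) = 0) (hne : ∃ g h, f g ≠ f h) :
    ∃ κ R₀ : ℝ, 0 < κ ∧ ∀ R : ℝ, R₀ ≤ R →
      κ * Real.log R ≤ ∑ᶠ g ∈ {g : G | dist o (g • o) ≤ R}, ∑ s ∈ S, (f (g * s) - f g) ^ 2 :=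
  energy t_join t_line t_half t_dual t_dp Pool.Agent.Y914.EL.t_WLK Pool.Agent.Y899.EL.Cap.t
    Pool.Agent.Y528.EL.harm hG hGC hno o S hS hgen f hf hne

end Pool.Agent.Y34.EL
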