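import Pool.Agent.Y34.EL.Stm

set_option autoImplicit false

universe u v

open Metric Set Filter Topology
open Pool.Agent.TH60.FP Pool.Agent.Y34.HB

namespace Pool.Agent.Y34.EL

lemma Chain.mono {X : Type u} [MetricSpace X] {o : X} {r : ℝ} {a b : X} {N N' : ℝ}
    (h : Chain o r a b N) (hN : N ≤ N') : Chain o r a b N' := by
  obtain ⟨n, y, h1, h2⟩ := h
  exact ⟨n, y, h1.trans hN, h2⟩

lemma Chain.symm {X : Type u} [MetricSpace X] {o : X} {r : ℝ} {a b : X} {N : ℝ}
    (h : Chain o r a b N) : Chain o r b a N := by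
  obtain ⟨n, y, h1, h2, h3, h4, h5⟩ := h
  refine ⟨n, fun i => y (n - i), h1, ?_, ?_, fun i _ => h4 _ (Nat.sub_le _ _), fun i hi => ?_⟩
  · simpa using h3
  · simpa using h2
  · have h6 := h5 (n - (i + 1)) (by omega)
    rw [show n - (i + 1) + 1 = n - i by omega] at h6
    show dist (y (n - i)) (y (n - (i + 1))) ≤ 1
    rw [dist_comm]
    exact h6

lemma Chain.trans {X : Type u} [MetricSpace X] {o : X} {r : ℝ} {a b c : X} {N M : ℝ}
    (h : Chain o r a b N) (h' : Chain o r b c M) : Chain o r a c (N + M) := by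
  obtain ⟨n, y, h1, h2, h3, h4, h5⟩ := h
  obtain ⟨m, z, g1, g2, g3, g4, g5⟩ := h'
  refine ⟨n + m, fun i => if i ≤ n then y i else z (i - n), by push_cast; linarith, ?_, ?_, ?_, ?_⟩
  · simpa using h2
  · by_cases hm : m = 0
    · subst hm
      simp only [add_zero, le_refl, if_true]
      rw [h3, ← g2, g3]
    · have : ¬ (n + m ≤ n) := by omega
      simp only [this, if_false, Nat.add_sub_cancel_left]
      exact g3
  · intro i hi
    by_cases hin : i ≤ n
    · simp only [hin, if_true]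
      exact h4 i hin
    · simp only [hin, if_false]
      exact g4 _ (by omega)
  · intro i hi
    by_cases hin : i + 1 ≤ n
    · have : i ≤ n := by omega
      simp only [hin, this, if_true]
      exact h5 i (by omega)
    · by_cases hin' : i ≤ n
      · have hi' : i = n := by omega
        subst hi'
        simp only [le_refl, if_true, hin, if_false]
        rw [h3, ← g2, show i + 1 - i = 0 + 1 by omega]
        exact g5 0 (by omega)
      · simp only [hin, hin', if_false]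
        rw [show i + 1 - n = (i - n) + 1 by omega]
        exact g5 _ (by omega)

lemma Lnk.mono {X : Type u} [MetricSpace X] {o : X} {C C' : ℝ} {c c' : ℝ → X}
    (h : Lnk o C c c') (hC : C ≤ C') : Lnk o C' c c' := fun r hr =>
  (h r hr).mono (mul_le_mul_of_nonneg_right hC (by linarith))

lemma Lnk.trans {X : Type u} [MetricSpace X] {o : X} {C C' : ℝ} {c c' c'' : ℝ → X}
    (h : Lnk o C c c') (h' : Lnk o C' c' c'') : Lnk o (C + C') c c'' := by
  intro r hr
  have := (h r hr).trans (h' r hr)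
  rwa [← add_mul] at this

lemma Lnk.symm {X : Type u} [MetricSpace X] {o : X} {C : ℝ} {c c' : ℝ → X}
    (h : Lnk o C c c') : Lnk o C c' c := fun r hr => (h r hr).symm

lemma Lnk.congr {X : Type u} [MetricSpace X] {o : X} {C : ℝ} {c c' c'' : ℝ → X}
    (h : Lnk o C c c') (h' : ∀ t : ℝ, 0 ≤ t → c' t = c'' t) : Lnk o C c c'' := by
  intro r hr
  have := h r hr
  rwa [h' r hr] at this

/-- dual rays are linked if there are no rank one isometries -/
lemma dual_link (hJOIN : S_JOIN.{u}) (hLINE : S_LINE.{u}) (hHALF : S_HALF.{u})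
    (hDUAL : S_DUAL.{u, v}) {X : Type u} [MetricSpace X] {G : Type v} [Group G] [MulAction G X]
    (hG : Geo X G) (hno : ∀ g : G, ¬ RankOne X g) (o : X) {c η : ℝ → X} (hc : Ray o c)
    (hη : Ray o η) (hd : DualPair G o c η) : Lnk o 21 c η := by
  have := hG.proper
  by_cases hopp : Opp o c η
  · obtain ⟨σ, K, hσ, hcl⟩ := hLINE X hG.cn o c η hc hη hopp
    rcases (HP σ).eq_empty_or_nonempty with he | hne
    · obtain ⟨g, hg⟩ := hDUAL X G hG o c η hc hη hd σ K hσ hcl he
      exact absurd hg (hno g)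
    · exact hHALF X hG.cn o c η hc hη σ K hσ hcl hne
  · exact (hJOIN X hG.cn o c η hc hη hopp).mono (by norm_num)

/-- all rays are linked if there are no rank one isometries -/
theorem link (hJOIN : S_JOIN.{u}) (hLINE : S_LINE.{u}) (hHALF : S_HALF.{u})
    (hDUAL : S_DUAL.{u, v}) (hDP : S_DP.{u, v}) {X : Type u} [MetricSpace X] {G : Type v}
    [Group G] [MulAction G X] (hG : Geo X G) (hno : ∀ g : G, ¬ RankOne X g) (o : X)
    (c₁ c₂ : ℝ → X) (hc₁ : Ray o c₁) (hc₂ : Ray o c₂) : Lnk o 42 c₁ c₂ := by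
  have := hG.proper
  obtain ⟨η₁, η₂, c₃, h1, h2, h3, h4, h5, h6, h7⟩ := hDP X G hG o c₁ c₂ hc₁ hc₂
  have d := fun {c η : ℝ → X} (a : Ray o c) (b : Ray o η) (e : DualPair G o c η) =>
    dual_link hJOIN hLINE hHALF hDUAL hG hno o a b e
  by_cases hopp : Opp o c₃ c₂
  · have h8 := (d hc₁ h1 h4).congr (h7 hopp)
    exact (h8.trans (d hc₂ h2 h5).symm).mono (by norm_num)
  · exact ((d hc₁ h3 h6).trans (hJOIN X hG.cn o c₃ c₂ h3 hc₂ hopp)).mono (by norm_num)

/-- the energy of harmonic functions -/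
theorem energy (hJOIN : S_JOIN.{u}) (hLINE : S_LINE.{u}) (hHALF : S_HALF.{u})
    (hDUAL : S_DUAL.{u, v}) (hDP : S_DP.{u, v}) (hWLK : S_WLK.{u, v}) (hCAP : S_CAP.{u, v})
    (hHARM : S_HARM.{u, v}) {X : Type u} [MetricSpace X] {G : Type v}
    [Group G] [MulAction G X] (hG : Geo X G) (hGC : GC X) (hno : ∀ g : G, ¬ RankOne X g) (o : X)
    (S : Finset G) (hS : ∀ s ∈ S, s⁻¹ ∈ S) (hgen : Subgroup.closure (S : Set G) = ⊤)
    (f : G → ℝ) (hf : ∀ g, ∑ s ∈ S, (f (g * s) - f g) = 0) (hne : ∃ g h, f g ≠ f h) :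
    ∃ κ R₀ : ℝ, 0 < κ ∧ ∀ R : ℝ, R₀ ≤ R →
      κ * Real.log R ≤ ∑ᶠ g ∈ {g : G | dist o (g • o) ≤ R}, ∑ s ∈ S, (f (g * s) - f g) ^ 2 := by
  set D : ℝ := ∑ s ∈ S, dist o (s • o) with hD
  have hD0 : 0 ≤ D := Finset.sum_nonneg fun _ _ => dist_nonneg
  have hDs : ∀ s ∈ S, dist o (s • o) ≤ D := fun s hs =>
    Finset.single_le_sum (f := fun s => dist o (s • o)) (fun _ _ => dist_nonneg) hs
  obtain ⟨B, C', hW⟩ := hWLK X G hG hGC o 42
    (fun c c' hc hc' => link hJOIN hLINE hHALF hDUAL hDP hG hno o c c' hc hc') D hD0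
  obtain ⟨a, b, r₀, hab, h1, h2⟩ := hHARM X G hG o S hS hgen D hDs f hf hne
  exact hCAP X G hG o S hS hgen D B C' hD0 hW f a b r₀ hab h1 h2

end Pool.Agent.Y34.EL
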