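import Pool.Agent.Y34.HB.Stm2

/-!
# Project EL (owner helper34): rank one isometries and the first `ℓ²`-Betti number

`G` acts geometrically on a proper geodesically complete CAT(0) space `X`.  If `G` contains no
rank one isometry then any two points of a sphere of radius `r` are joined, on the sphere, by a path
of length at most `C (r + 1)`; so every nonconstant harmonic function on `G` has energy at least
`κ log R` on balls of radius `R`, and the first `ℓ²`-Betti number of `G` vanishes.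

Every `def S_... : Prop` is the statement of one part.
-/

set_option autoImplicit false

universe u v

open Metric Set Filter Topology
open Pool.Agent.TH60.FP Pool.Agent.Y34.HB

namespace Pool.Agent.Y34.EL

/-- `y` is the point at distance `t` from `o` on the geodesic from `o` to `p` -/
def On {X : Type u} [MetricSpace X] (o p : X) (t : ℝ) (y : X) : Prop :=
  dist o y = t ∧ dist y p = dist o p - t

/-- a unit speed ray from `o` (only the values on `[0, ∞)` matter) -/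
def Ray {X : Type u} [MetricSpace X] (o : X) (c : ℝ → X) : Prop :=
  c 0 = o ∧ ∀ s t : ℝ, 0 ≤ s → 0 ≤ t → dist (c s) (c t) = |s - t|

/-- a chain on the sphere of radius `r` around `o`, with at most `N` steps of size at most one -/
def Chain {X : Type u} [MetricSpace X] (o : X) (r : ℝ) (a b : X) (N : ℝ) : Prop :=
  ∃ (n : ℕ) (y : ℕ → X), (n : ℝ) ≤ N ∧ y 0 = a ∧ y n = b ∧ (∀ i, i ≤ n → dist o (y i) = r) ∧
    ∀ i, i < n → dist (y i) (y (i + 1)) ≤ 1

/-- the points of two rays are joined on spheres by chains of linear length -/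
def Lnk {X : Type u} [MetricSpace X] (o : X) (C : ℝ) (c c' : ℝ → X) : Prop :=
  ∀ r : ℝ, 0 ≤ r → Chain o r (c r) (c' r) (C * (r + 1))

/-- the segments from `c t` to `c' t` stay at bounded distance from `o` -/
def Opp {X : Type u} [MetricSpace X] (o : X) (c c' : ℝ → X) : Prop :=
  ∃ K : ℝ, ∀ t : ℝ, 0 ≤ t → ∃ m, dist (c t) m + dist m (c' t) = dist (c t) (c' t) ∧ dist o m ≤ K

/-- `σ` is at distance at most `K` from the ray `c` for positive and from `c'` for negative times -/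
def Clo {X : Type u} [MetricSpace X] (σ : ℝ → X) (K : ℝ) (c c' : ℝ → X) : Prop :=
  ∀ t : ℝ, 0 ≤ t → dist (σ t) (c t) ≤ K ∧ dist (σ (-t)) (c' t) ≤ K

/-- there are `g ∈ G` with `g o` near `c (∞)` and `g⁻¹ o` near `η (∞)` -/
def DualPair {X : Type u} [MetricSpace X] (G : Type v) [Group G] [MulAction G X] (o : X)
    (c η : ℝ → X) : Prop :=
  ∀ t : ℝ, 0 < t → ∃ g : G, t ≤ dist o (g • o) ∧ (∀ y, On o (g • o) t y → dist y (c t) ≤ 1) ∧
    ∀ y, On o (g⁻¹ • o) t y → dist y (η t) ≤ 1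

/-- `g` has an axis which does not bound a flat half-plane -/
def RankOne (X : Type u) [MetricSpace X] {G : Type v} [Group G] [MulAction G X] (g : G) : Prop :=
  ∃ (τ : ℝ) (c : ℝ → X), 0 < τ ∧ Axis g τ c ∧ HP c = ∅

/-- `X` is geodesically complete: segments extend to lines -/
def GC (X : Type u) [MetricSpace X] : Prop :=
  ∀ p q : X, p ≠ q → ∃ c : ℝ → X, Isometry c ∧ c 0 = p ∧ c (dist p q) = q

/-! ### basic geometry -/

/-- STEW: geodesics exist and are unique, Stewart inequality -/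
def S_STEW : Prop := ∀ (X : Type u) [MetricSpace X] [ProperSpace X], CN X →
  (∀ (o p : X) (t : ℝ), 0 ≤ t → t ≤ dist o p → ∃ y, On o p t y) ∧
  (∀ (o p : X) (t : ℝ) (y y' : X), On o p t y → On o p t y' → y = y') ∧
  ∀ (o p : X) (t : ℝ) (y : X), On o p t y → ∀ x : X,
    dist o p * dist x y ^ 2 ≤ (dist o p - t) * dist x o ^ 2 + t * dist x p ^ 2 -
      t * (dist o p - t) * dist o p

/-- CMP: comparison of two geodesics from `o`, and of two arbitrary geodesics -/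
def S_CMP : Prop := ∀ (X : Type u) [MetricSpace X] [ProperSpace X], CN X →
  (∀ (o p q : X) (s : ℝ) (a b : X), On o p s a → On o q s b →
    dist a b ^ 2 * (dist o p * dist o q) ≤ s ^ 2 * (dist p q ^ 2 - (dist o p - dist o q) ^ 2)) ∧
  ∀ (p q p' q' : X) (l : ℝ) (a b : X), On p q (l * dist p q) a → On p' q' (l * dist p' q') b →
    0 ≤ l → l ≤ 1 → dist a b ≤ (1 - l) * dist p p' + l * dist q q'

/-- TRI: two angles of a triangle -/
def S_TRI : Prop := ∀ (X : Type u) [MetricSpace X] [ProperSpace X], CN X →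
  ∀ (A B C : X) (T : ℝ) (a a' b b' : X), On A B T a → On A C T a' → On B A T b → On B C T b' →
    dist a a' ^ 2 + dist b b' ^ 2 ≤ 4 * T ^ 2

/-- PROJ: the projection to the sphere of a segment outside the ball has length at most `π s` -/
def S_PROJ : Prop := ∀ (X : Type u) [MetricSpace X] [ProperSpace X], CN X →
  ∀ (o p q : X) (s : ℝ) (a b : X), 0 ≤ s →
    (∀ m, dist p m + dist m q = dist p q → s ≤ dist o m) → On o p s a → On o q s b →
    Chain o s a b (7 * (s + 1))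

/-! ### links -/

/-- JOIN -/
def S_JOIN : Prop := ∀ (X : Type u) [MetricSpace X] [ProperSpace X], CN X →
  ∀ (o : X) (c c' : ℝ → X), Ray o c → Ray o c' → ¬ Opp o c c' → Lnk o 7 c c'

/-- LINE -/
def S_LINE : Prop := ∀ (X : Type u) [MetricSpace X] [ProperSpace X], CN X →
  ∀ (o : X) (c c' : ℝ → X), Ray o c → Ray o c' → Opp o c c' →
    ∃ (σ : ℝ → X) (K : ℝ), Isometry σ ∧ Clo σ K c c'

/-- HALF -/
def S_HALF : Prop := ∀ (X : Type u) [MetricSpace X] [ProperSpace X], CN X →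
  ∀ (o : X) (c c' : ℝ → X), Ray o c → Ray o c' →
    ∀ (σ : ℝ → X) (K : ℝ), Isometry σ → Clo σ K c c' → (HP σ).Nonempty → Lnk o 21 c c'

/-! ### rank one isometries -/

/-- FAR: if segments with ends in the directions of `σ` stay outside of the ball of radius `R` then
there is a line parallel to `σ` at distance `R` -/
def S_FAR : Prop := ∀ (X : Type u) [MetricSpace X] [ProperSpace X], CN X →
  ∀ (σ : ℝ → X), Isometry σ → ∀ R : ℝ, 1 < R →
  (∀ n : ℕ, 0 < n → ∃ p q : X, (n : ℝ) ≤ dist (σ 0) p ∧ (n : ℝ) ≤ dist (σ 0) q ∧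
    (∀ y, On (σ 0) p n y → dist y (σ (-n)) ≤ 1) ∧ (∀ y, On (σ 0) q n y → dist y (σ n) ≤ 1) ∧
    ∀ m, dist p m + dist m q = dist p q → R ≤ dist (σ 0) m) →
  ∃ τ : ℝ → X, Isometry τ ∧ Par σ τ ∧ R ≤ DD σ τ

/-- HLIM: parallel lines at arbitrarily large distances give a flat half-plane -/
def S_HLIM : Prop := ∀ (X : Type u) [MetricSpace X] [ProperSpace X], CN X →
  ∀ (σ : ℝ → X), Isometry σ → (∀ n : ℕ, ∃ τ : ℝ → X, Isometry τ ∧ Par σ τ ∧ (n : ℝ) ≤ DD σ τ) →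
  (HP σ).Nonempty

/-- RO: segments with ends in the directions of a line without half-planes pass near `σ 0` -/
def S_RO : Prop := ∀ (X : Type u) [MetricSpace X] [ProperSpace X], CN X →
  ∀ (σ : ℝ → X), Isometry σ → HP σ = ∅ → ∃ R T : ℝ, 0 < T ∧ ∀ p q : X, T ≤ dist (σ 0) p →
    T ≤ dist (σ 0) q → (∀ y, On (σ 0) p T y → dist y (σ (-T)) ≤ 1) →
    (∀ y, On (σ 0) q T y → dist y (σ T) ≤ 1) →
    ∃ m, dist p m + dist m q = dist p q ∧ dist (σ 0) m ≤ R

/-- AXIS: elements with positive translation length have an axis -/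
def S_AXIS : Prop := ∀ (X : Type u) [MetricSpace X] (G : Type v) [Group G] [MulAction G X],
  Geo X G → ∀ (g : G) (x : X) (κ : ℝ), 0 < κ → (∀ m : ℕ, κ * m ≤ dist x (g ^ m • x)) →
  ∃ (τ : ℝ) (c : ℝ → X), 0 < τ ∧ Axis g τ c

/-- CLOSE: closing lemma -/
def S_CLOSE : Prop := ∀ (X : Type u) [MetricSpace X] (G : Type v) [Group G] [MulAction G X],
  Geo X G → ∀ (σ : ℝ → X), Isometry σ → HP σ = ∅ → ∃ T L : ℝ, 0 < T ∧ T ≤ L ∧ ∀ g : G,
    L ≤ dist (σ 0) (g • σ 0) → (∀ y, On (σ 0) (g • σ 0) T y → dist y (σ T) ≤ 1 / 2) →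
    (∀ y, On (σ 0) (g⁻¹ • σ 0) T y → dist y (σ (-T)) ≤ 1 / 2) → RankOne X g

/-- DUAL: a dual pair of rays joined by a line without half-planes -/
def S_DUAL : Prop := ∀ (X : Type u) [MetricSpace X] (G : Type v) [Group G] [MulAction G X],
  Geo X G → ∀ (o : X) (c η : ℝ → X), Ray o c → Ray o η → DualPair G o c η →
  ∀ (σ : ℝ → X) (K : ℝ), Isometry σ → Clo σ K c η → HP σ = ∅ → ∃ g : G, RankOne X g

/-- LRAY: limits of segments from `o` -/
def S_LRAY : Prop := ∀ (X : Type u) [MetricSpace X] [ProperSpace X], CN X → ∀ (o : X) (p : ℕ → X),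
  Tendsto (fun n => dist o (p n)) (hyperfilter ℕ : Filter ℕ) atTop → ∃ η : ℝ → X, Ray o η ∧
    ∀ t ε : ℝ, 0 ≤ t → 0 < ε → ∀ᶠ n in (hyperfilter ℕ : Filter ℕ), ∀ y, On o (p n) t y →
      dist y (η t) ≤ ε

/-- DP: existence of dual rays -/
def S_DP : Prop := ∀ (X : Type u) [MetricSpace X] (G : Type v) [Group G] [MulAction G X],
  Geo X G → ∀ (o : X) (c₁ c₂ : ℝ → X), Ray o c₁ → Ray o c₂ →
  ∃ η₁ η₂ c₃ : ℝ → X, Ray o η₁ ∧ Ray o η₂ ∧ Ray o c₃ ∧ DualPair G o c₁ η₁ ∧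
    DualPair G o c₂ η₂ ∧ DualPair G o c₁ c₃ ∧ (Opp o c₃ c₂ → ∀ t : ℝ, 0 ≤ t → η₁ t = η₂ t)

/-! ### energy -/

/-- WALK: walks in annuli -/
def Walk {X : Type u} [MetricSpace X] (G : Type v) [Group G] [MulAction G X] (o : X)
    (D B C : ℝ) : Prop :=
  ∀ (r : ℝ) (g h : G), 0 ≤ r → r ≤ dist o (g • o) → dist o (g • o) ≤ r + D →
    r ≤ dist o (h • o) → dist o (h • o) ≤ r + D →
    ∃ (n : ℕ) (x : ℕ → G), (n : ℝ) ≤ C * (r + 1) ∧ x 0 = g ∧ x n = h ∧
      (∀ i, i ≤ n → r - B ≤ dist o (x i • o) ∧ dist o (x i • o) ≤ r + B) ∧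
      ∀ i, i < n → dist o (((x i)⁻¹ * x (i + 1)) • o) ≤ B

/-- WLK: from chains on spheres to walks in the group -/
def S_WLK : Prop := ∀ (X : Type u) [MetricSpace X] (G : Type v) [Group G] [MulAction G X],
  Geo X G → GC X → ∀ (o : X) (C : ℝ), (∀ c c' : ℝ → X, Ray o c → Ray o c' → Lnk o C c c') →
  ∀ D : ℝ, 0 ≤ D → ∃ B C' : ℝ, Walk G o D B C'

/-- CAP: energy of functions which separate two unbounded sets -/
def S_CAP : Prop := ∀ (X : Type u) [MetricSpace X] (G : Type v) [Group G] [MulAction G X],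
  Geo X G → ∀ (o : X) (S : Finset G), (∀ s ∈ S, s⁻¹ ∈ S) → Subgroup.closure (S : Set G) = ⊤ →
  ∀ D B C : ℝ, 0 ≤ D → Walk G o D B C → ∀ (f : G → ℝ) (a b r₀ : ℝ), b < a →
  (∀ r : ℝ, r₀ ≤ r → ∃ g : G, r ≤ dist o (g • o) ∧ dist o (g • o) ≤ r + D ∧ a ≤ f g) →
  (∀ r : ℝ, r₀ ≤ r → ∃ g : G, r ≤ dist o (g • o) ∧ dist o (g • o) ≤ r + D ∧ f g ≤ b) →
  ∃ κ R₀ : ℝ, 0 < κ ∧ ∀ R : ℝ, R₀ ≤ R →
    κ * Real.log R ≤ ∑ᶠ g ∈ {g : G | dist o (g • o) ≤ R}, ∑ s ∈ S, (f (g * s) - f g) ^ 2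

/-- HARM: level sets of harmonic functions -/
def S_HARM : Prop := ∀ (X : Type u) [MetricSpace X] (G : Type v) [Group G] [MulAction G X],
  Geo X G → ∀ (o : X) (S : Finset G), (∀ s ∈ S, s⁻¹ ∈ S) → Subgroup.closure (S : Set G) = ⊤ →
  ∀ D : ℝ, (∀ s ∈ S, dist o (s • o) ≤ D) → ∀ f : G → ℝ,
  (∀ g, ∑ s ∈ S, (f (g * s) - f g) = 0) → (∃ g h, f g ≠ f h) →
  ∃ a b r₀ : ℝ, b < a ∧
    (∀ r : ℝ, r₀ ≤ r → ∃ g : G, r ≤ dist o (g • o) ∧ dist o (g • o) ≤ r + D ∧ a ≤ f g) ∧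
    ∀ r : ℝ, r₀ ≤ r → ∃ g : G, r ≤ dist o (g • o) ∧ dist o (g • o) ≤ r + D ∧ f g ≤ b

end Pool.Agent.Y34.EL
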